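import Pool.Agent.Helper64.RFn.GoalsV

/-!
Packet RFn-VLBn (MP_c98eff_gt, general dimension): the lower volume bound.
-/

set_option autoImplicit false

open MeasureTheory Set Matrix

namespace Pool.Agent.Helper60.RFn.VLBn

open Pool.Agent.Helper47.RFn Pool.Agent.Helper73.RFn Pool.Agent.Helper64.RFn

variable {n : ℕ}

theorem frm_of {I : Set ℝ} {A θ : ℝ → MF n} (h : FFlow I A θ) {t : ℝ} (ht : t ∈ I) :
    Frm (A t) (θ t) :=
  ⟨h.inv t ht, fun a i => (h.flA a i).fam.sm t ht, fun i a => (h.flt i a).fam.sm t ht, h.nA t ht⟩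

/-- monotonicity of the volume: integral of a pointwise inequality off `0` -/
theorem ball_mono {f g : EE n → ℝ} (hf : IntegrableOn f (Metric.ball (0 : EE n) 1))
    (hg : IntegrableOn g (Metric.ball (0 : EE n) 1)) (h : ∀ x, x ≠ 0 → f x ≤ g x) :
    ∫ x in Metric.ball (0 : EE n) 1, f x ≤ ∫ x in Metric.ball (0 : EE n) 1, g x := by
  apply integral_mono_ae hf hg
  have h2 : ∀ᵐ x : EE n ∂(volume.restrict (Metric.ball (0 : EE n) 1)), x ≠ 0 := by
    apply ae_restrict_of_ae
    exact Measure.ae_ne volume 0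
  filter_upwards [h2] with x hx
  exact h x hx

/-- the radial vector has length one in the frame -/
theorem sum_sq_one {A θ : MF n} (hF : Frm A θ) {x : EE n} (hx : ‖x‖ = 1) :
    ∑ a, (∑ i, A x a i * x i) ^ 2 = 1 := by
  have h1 : θ x * A x = 1 := mul_eq_one_comm.mp (hF.inv x)
  have h2 : ∀ a, (∑ i, A x a i * x i) ^ 2 = ∑ j, ∑ i, x j * (θ x j a * A x a i) * x i := by
    intro a
    rw [sq]
    nth_rewrite 1 [hF.nA x a]
    rw [Finset.sum_mul]
    refine Finset.sum_congr rfl fun j _ => ?_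
    rw [Finset.mul_sum]
    refine Finset.sum_congr rfl fun i _ => ?_
    ring
  simp_rw [h2]
  rw [Finset.sum_comm]
  have h3 : ∀ j, ∑ a, ∑ i, x j * (θ x j a * A x a i) * x i = x j ^ 2 := by
    intro j
    rw [Finset.sum_comm]
    have h4 : ∀ i, ∑ a, x j * (θ x j a * A x a i) * x i = x j * (θ x * A x) j i * x i := by
      intro i
      rw [Matrix.mul_apply, Finset.mul_sum, Finset.sum_mul]
    simp_rw [h4, h1, Matrix.one_apply]
    simp [sq]
  simp_rw [h3]
  rw [EuclideanSpace.norm_eq] at hx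
  have h5 : ∑ i, ‖x i‖ ^ 2 = 1 := by
    have h6 : 0 ≤ ∑ i, ‖x i‖ ^ 2 := Finset.sum_nonneg fun i _ => sq_nonneg _
    have h7 := Real.sq_sqrt h6
    rw [hx] at h7
    linarith
  simpa using h5

theorem pf_le {A θ : MF n} (hF : Frm A θ) {x : EE n} (hx : ‖x‖ = 1) (a b : Fin (n + 1)) :
    |Pf A x a b| ≤ 1 := by
  have h := sum_sq_one hF hx
  set N : Fin (n + 1) → ℝ := fun a => ∑ i, A x a i * x i with hN
  have h' : ∑ a, N a ^ 2 = 1 := h
  have hle : ∀ a, N a ^ 2 ≤ 1 := by
    intro a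
    rw [← h']
    exact Finset.single_le_sum (f := fun a => N a ^ 2) (fun a _ => sq_nonneg _) (Finset.mem_univ a)
  have e : Pf A x a b = (if a = b then 1 else 0) - N a * N b := rfl
  rw [e]
  by_cases hab : a = b
  · subst hab
    rw [if_pos rfl, abs_le]
    constructor <;> nlinarith [hle a, sq_nonneg (N a)]
  · rw [if_neg hab, abs_le]
    constructor <;> nlinarith [hle a, hle b, sq_nonneg (N a + N b), sq_nonneg (N a - N b)]

theorem pff_eq (A : MF n) {x : EE n} (hx : ‖x‖ = 1) (a b : Fin (n + 1)) :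
    Pff A a b x = Pf A x a b := by
  simp only [Pff, Pf, nfc, nn, hx, div_one]

theorem vlbn (ffg : FFGs) (frc : FRCn) (det : DETn2) (veq : VEQn) (cmp : CMPn) (dic : DicStmt)
    (c4 : Goal_C4) (c6 : Goal_C6) : Pool.Agent.Helper64.RFn.VLBn := by
  intro n C σ hn hC hσ hσ1
  obtain ⟨C', hC', hveq⟩ := veq n C σ hn hC hσ hσ1
  have hn' : (4 : ℝ) ≤ n := by exact_mod_cast hn
  set m : ℝ := 2 * ((n : ℝ) - 1) with hm
  have hm1 : 1 ≤ m := by rw [hm]; linarith
  have hm0 : 0 < m := by linarith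
  set Kn : ℝ := ((n : ℝ) + 1) * (volume (Metric.ball (0 : EE n) 1)).toReal / 4 with hKn
  have hvol0 : 0 < (volume (Metric.ball (0 : EE n) 1)).toReal := by
    apply ENNReal.toReal_pos
    · exact (Metric.measure_ball_pos volume _ one_pos).ne'
    · exact measure_ball_lt_top.ne
  have hKn0 : 0 < Kn := by positivity
  have hC0 : 0 < C := by linarith
  have hC'0 : 0 < C' := by linarith
  refine ⟨Kn / (C' * Real.sqrt C ^ n), by positivity, ?_⟩
  intro T τ A θ hF hL hs
  obtain ⟨hτ0, hτT⟩ := hL.pos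
  have hI : ∀ t, 0 ≤ t → t < T → t ∈ Set.Ico (0:ℝ) T := fun t h h' => ⟨h, h'⟩
  have hfr : ∀ t, 0 ≤ t → t < T → Frm (A t) (θ t) := fun t h h' => frm_of hF (hI t h h')
  have hcof : ∀ t, 0 ≤ t → t < T → Cofr (gOf (θ t)) (A t) (θ t) := fun t h h' =>
    frc n _ _ (hfr t h h')
  have hD : 0 < T - τ := by linarith
  have hint : ∀ t, 0 ≤ t → t < T →
      IntegrableOn (fun x => Real.sqrt (gOf (θ t) x).det) (Metric.ball (0 : EE n) 1) := by
    intro t h h'
    exact (c4 n).2.1 _ (c6 n _ (hcof t h h').met).2.2.1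
  -- the metric at time `τ`
  obtain ⟨c1, C1, hc1, hC1, hb⟩ := cmp n _ (hcof τ hτ0.le hτT).met
  have hp : 0 < σ / 2 := by positivity
  obtain ⟨η, hη, hffg⟩ := ffg n (c1 / (m * C' * (T - τ))) (C' * C1 / (m * (T - τ))) (by omega)
    (by positivity) (by positivity)
  -- choice of the time
  obtain ⟨t, hτt, htT, hz⟩ : ∃ t, τ ≤ t ∧ t < T ∧
      ((m + 4) * C) * (2 * (T - t) / τ) ^ (σ / 2) ≤ η := by
    have hB : 0 < (m + 4) * C := by positivity
    have hη' : 0 < η / ((m + 4) * C) := by positivity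
    have h1 : 0 < min (2 * (T - τ) / τ) ((η / ((m + 4) * C)) ^ (σ / 2)⁻¹) := by
      apply lt_min
      · positivity
      · exact Real.rpow_pos_of_pos hη' _
    obtain ⟨ζ, hζ⟩ : ∃ ζ, ζ = min (2 * (T - τ) / τ) ((η / ((m + 4) * C)) ^ (σ / 2)⁻¹) := ⟨_, rfl⟩
    rw [← hζ] at h1
    have h2 : ζ ≤ 2 * (T - τ) / τ := by rw [hζ]; exact min_le_left _ _
    have h3 : ζ ≤ (η / ((m + 4) * C)) ^ (σ / 2)⁻¹ := by rw [hζ]; exact min_le_right _ _
    refine ⟨T - ζ * τ / 2, ?_, ?_, ?_⟩
    · rw [le_div_iff₀ hτ0] at h2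
      linarith
    · have : 0 < ζ * τ / 2 := by positivity
      linarith
    · have h4 : 2 * (T - (T - ζ * τ / 2)) / τ = ζ := by
        field_simp
        ring
      rw [h4]
      have h5 : ζ ^ (σ / 2) ≤ η / ((m + 4) * C) := by
        calc ζ ^ (σ / 2) ≤ ((η / ((m + 4) * C)) ^ (σ / 2)⁻¹) ^ (σ / 2) :=
              Real.rpow_le_rpow h1.le h3 hp.le
          _ = η / ((m + 4) * C) := Real.rpow_inv_rpow hη'.le hp.ne'
      calc ((m + 4) * C) * ζ ^ (σ / 2) ≤ ((m + 4) * C) * (η / ((m + 4) * C)) :=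
            mul_le_mul_of_nonneg_left h5 hB.le
        _ = η := by field_simp
  have ht0 : 0 ≤ t := hτ0.le.trans hτt
  have hTt : 0 < T - t := by linarith
  have hft := hfr t ht0 htT
  have hV := hveq T τ A θ hF hL t hτt htT
  have hs0 : 0 < m * (T - t) := by positivity
  have hkey := hffg (gOf (θ t)) (A t) (θ t) (m * (T - t)) (hcof t ht0 htT) hs0
    (by
      intro x hx v hv
      have hx0 : x ≠ 0 := by
        intro h; rw [h, norm_zero] at hx; exact zero_ne_one hx
      obtain ⟨h1, h2⟩ := (hV x hx0).2 v hv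
      obtain ⟨h3, h4⟩ := hb x hx v
      constructor
      · have h5 : c1 * ∑ i, v i ^ 2 / (T - τ) ≤ C' * (ip (gOf (θ t)) x v v / (T - t)) := by
          refine le_trans ?_ h1
          rw [← Finset.sum_div, ← mul_div_assoc]
          exact div_le_div_of_nonneg_right h3 hD.le
        rw [← Finset.sum_div] at h5
        have h6 : c1 / (m * C' * (T - τ)) * (m * (T - t)) * ∑ i, v i ^ 2 =
            (T - t) / C' * (c1 * ((∑ i, v i ^ 2) / (T - τ))) := by
          field_simp
        rw [h6]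
        calc (T - t) / C' * (c1 * ((∑ i, v i ^ 2) / (T - τ)))
            ≤ (T - t) / C' * (C' * (ip (gOf (θ t)) x v v / (T - t))) :=
              mul_le_mul_of_nonneg_left h5 (by positivity)
          _ = ip (gOf (θ t)) x v v := by field_simp
      · have h5 : ip (gOf (θ t)) x v v / (T - t) ≤ C' * (C1 * (∑ i, v i ^ 2) / (T - τ)) := by
          refine h2.trans (mul_le_mul_of_nonneg_left ?_ hC'0.le)
          exact div_le_div_of_nonneg_right h4 hD.le
        rw [div_le_iff₀ hTt] at h5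
        refine h5.trans (le_of_eq ?_)
        field_simp)
    (by
      intro x hx a b c d
      have hx0 : x ≠ 0 := by
        intro h; rw [h, norm_zero] at hx; exact zero_ne_one hx
      rw [dic n (A t) (θ t) hft x hx a b c d]
      obtain ⟨h1, h2⟩ := hL.aft t hτt htT x hx0
      have h2' := h2 a b c d
      obtain ⟨Z, hZ⟩ : ∃ Z, Z = (2 * (T - t) / τ) ^ (σ / 2) := ⟨_, rfl⟩
      rw [← hZ] at h1 h2' hz
      have hZ0 : 0 ≤ Z := by
        rw [hZ]
        apply Real.rpow_nonneg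
        positivity
      have hE : Kf (A t) (θ t) a b c d x = - Ef (A t) (θ t) a b c d x -
          1 / ((n : ℝ) - 1) * (lamf (A t) (θ t) x *
            (Pf (A t) x a c * Pf (A t) x b d - Pf (A t) x a d * Pf (A t) x b c)) := by
        rw [← pff_eq _ hx, ← pff_eq _ hx, ← pff_eq _ hx, ← pff_eq _ hx]
        simp only [Ef, Rf]
        ring
      rw [hE]
      generalize lamf (A t) (θ t) x = L at h1
      generalize Ef (A t) (θ t) a b c d x = E at h2'
      have q1 := pf_le hft hx b c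
      have q2 := pf_le hft hx a d
      have q3 := pf_le hft hx a c
      have q4 := pf_le hft hx b d
      generalize Pf (A t) x b c = p1 at q1
      generalize Pf (A t) x a d = p2 at q2
      generalize Pf (A t) x a c = p3 at q3
      generalize Pf (A t) x b d = p4 at q4
      have hn1 : (n : ℝ) - 1 ≠ 0 := by
        have : (0:ℝ) < (n : ℝ) - 1 := by linarith
        exact this.ne'
      have e1 : m * (T - t) * (-E - 1 / ((n : ℝ) - 1) * (L * (p3 * p4 - p2 * p1))) -
          (p1 * p2 - p3 * p4) = -(m * ((T - t) * E)) +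
            2 * ((T - t) * (L - 1 / (2 * (T - t)))) * (p1 * p2 - p3 * p4) := by
        rw [hm]
        field_simp
        ring
      rw [e1]
      have b1 : |(T - t) * E| ≤ C * Z := by
        rw [abs_mul, abs_of_pos hTt]
        rw [le_div_iff₀ hTt] at h2'
        linarith
      have b2 : |(T - t) * (L - 1 / (2 * (T - t)))| ≤ C * Z := by
        rw [abs_mul, abs_of_pos hTt]
        rw [le_div_iff₀ hTt] at h1
        linarith
      have b3 : |p1 * p2 - p3 * p4| ≤ 2 := by
        have h12 : |p1 * p2| ≤ 1 := by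
          rw [abs_mul]; exact mul_le_one₀ q1 (abs_nonneg _) q2
        have h34 : |p3 * p4| ≤ 1 := by
          rw [abs_mul]; exact mul_le_one₀ q3 (abs_nonneg _) q4
        have := abs_sub (p1 * p2) (p3 * p4)
        linarith
      have hCZ : 0 ≤ C * Z := by positivity
      calc |-(m * ((T - t) * E)) + 2 * ((T - t) * (L - 1 / (2 * (T - t)))) * (p1 * p2 - p3 * p4)|
          ≤ |-(m * ((T - t) * E))| +
            |2 * ((T - t) * (L - 1 / (2 * (T - t)))) * (p1 * p2 - p3 * p4)| := abs_add_le _ _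
        _ = m * |(T - t) * E| +
            2 * |(T - t) * (L - 1 / (2 * (T - t)))| * |p1 * p2 - p3 * p4| := by
            rw [abs_neg, abs_mul m, abs_of_pos hm0, abs_mul (2 * ((T - t) * (L - 1 / (2 * (T - t))))),
              abs_mul 2 ((T - t) * (L - 1 / (2 * (T - t)))), abs_two]
        _ ≤ m * (C * Z) + 2 * (C * Z) * 2 := by
            have := mul_le_mul (mul_le_mul_of_nonneg_left b2 (by norm_num : (0:ℝ) ≤ 2)) b3
              (abs_nonneg _) (by positivity)
            have := mul_le_mul_of_nonneg_left b1 hm0.le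
            linarith
        _ = (m + 4) * C * Z := by ring
        _ ≤ η := hz)
  rw [← hKn] at hkey
  -- the volume density at times `t` and `τ`
  have hSt : 0 < Real.sqrt (T - t) ^ n := by positivity
  have hSτ : 0 < Real.sqrt (T - τ) ^ n := by positivity
  have h1 : ∫ x in Metric.ball (0 : EE n) 1, Real.sqrt (gOf (θ t) x).det ≤
      ∫ x in Metric.ball (0 : EE n) 1, (Real.sqrt (T - t) ^ n * C' * (Real.sqrt (T - τ) ^ n)⁻¹) *
          Real.sqrt (gOf (θ τ) x).det := by
    apply ball_mono (hint t ht0 htT) ((hint τ hτ0.le hτT).const_mul _)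
    intro x hx
    have h2 := (hV x hx).1
    rw [div_le_iff₀ hSt] at h2
    refine h2.trans (le_of_eq ?_)
    rw [div_eq_mul_inv]
    ring
  rw [integral_const_mul] at h1
  have h2 : ∫ x in Metric.ball (0 : EE n) 1, Real.sqrt (gOf (θ τ) x).det ≤
      ∫ x in Metric.ball (0 : EE n) 1, Real.sqrt (gOf (θ 0) x).det := by
    apply ball_mono (hint τ hτ0.le hτT) (hint 0 le_rfl (hτ0.trans hτT))
    intro x hx
    have hder : ∀ r ∈ Set.Icc (0:ℝ) τ, HasDerivWithinAt (fun r => Real.sqrt (gOf (θ r) x).det)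
        (-(n : ℝ) * lamf (A r) (θ r) x * Real.sqrt (gOf (θ r) x).det) (Set.Ico 0 T) r := by
      intro r hr
      exact (det n (Set.Ico 0 T) A θ (by omega) hF r ⟨hr.1, hr.2.trans_lt hτT⟩ x hx).2
    have hanti : AntitoneOn (fun r => Real.sqrt (gOf (θ r) x).det) (Set.Icc 0 τ) := by
      apply antitoneOn_of_deriv_nonpos (convex_Icc 0 τ)
      · intro r hr
        exact ((hder r hr).continuousWithinAt).mono (fun y hy => ⟨hy.1, hy.2.trans_lt hτT⟩)
      · intro r hr
        rw [interior_Icc] at hr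
        exact ((hder r (Set.Ioo_subset_Icc_self hr)).hasDerivAt
          (Ico_mem_nhds hr.1 (hr.2.trans hτT))).differentiableAt.differentiableWithinAt
      · intro r hr
        rw [interior_Icc] at hr
        rw [((hder r (Set.Ioo_subset_Icc_self hr)).hasDerivAt (Ico_mem_nhds hr.1 (hr.2.trans hτT))).deriv]
        have h3 := hs r hr.1.le (hr.2.trans hτT) x hx
        have h4 := Real.sqrt_nonneg (gOf (θ r) x).det
        have h5 := mul_nonneg (mul_nonneg (by positivity : (0:ℝ) ≤ n) h3) h4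
        linarith
    exact hanti ⟨le_rfl, hτ0.le⟩ ⟨hτ0.le, le_rfl⟩ hτ0.le
  have hsq : Real.sqrt (T - t) ^ n ≤ Real.sqrt (m * (T - t)) ^ n := by
    apply pow_le_pow_left₀ (Real.sqrt_nonneg _)
    apply Real.sqrt_le_sqrt
    nlinarith
  have hg0 : gvol (gOf (θ t)) ≤
      (Real.sqrt (T - t) ^ n * C' * (Real.sqrt (T - τ) ^ n)⁻¹) * gvol (gOf (θ 0)) := by
    unfold gvol integ
    have hX : 0 ≤ Real.sqrt (T - t) ^ n * C' * (Real.sqrt (T - τ) ^ n)⁻¹ := by positivity
    calc ((n : ℝ) + 1) * ∫ x in Metric.ball (0 : EE n) 1, Real.sqrt (gOf (θ t) x).det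
        ≤ ((n : ℝ) + 1) * ((Real.sqrt (T - t) ^ n * C' * (Real.sqrt (T - τ) ^ n)⁻¹) *
          ∫ x in Metric.ball (0 : EE n) 1, Real.sqrt (gOf (θ 0) x).det) := by
          apply mul_le_mul_of_nonneg_left _ (by positivity)
          exact h1.trans (mul_le_mul_of_nonneg_left h2 hX)
      _ = _ := by ring
  have h3 : Real.sqrt (T - t) ^ n * Kn ≤
      (Real.sqrt (T - t) ^ n * C' * (Real.sqrt (T - τ) ^ n)⁻¹) * gvol (gOf (θ 0)) :=
    (mul_le_mul_of_nonneg_right hsq hKn0.le).trans (hkey.trans hg0)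
  have h4 : Kn ≤ C' * (Real.sqrt (T - τ) ^ n)⁻¹ * gvol (gOf (θ 0)) := by
    have h5 : Real.sqrt (T - t) ^ n * Kn ≤
        Real.sqrt (T - t) ^ n * (C' * (Real.sqrt (T - τ) ^ n)⁻¹ * gvol (gOf (θ 0))) := by
      refine h3.trans (le_of_eq ?_)
      ring
    exact le_of_mul_le_mul_left h5 hSt
  have h6 : Kn * Real.sqrt (T - τ) ^ n ≤ C' * gvol (gOf (θ 0)) := by
    have h7 := mul_le_mul_of_nonneg_right h4 hSτ.le
    refine h7.trans (le_of_eq ?_)
    field_simp
  have h8 : Real.sqrt τ ^ n ≤ Real.sqrt C ^ n * Real.sqrt (T - τ) ^ n := by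
    rw [← mul_pow, ← Real.sqrt_mul hC0.le]
    apply pow_le_pow_left₀ (Real.sqrt_nonneg _)
    apply Real.sqrt_le_sqrt
    have := hL.len.1
    rw [div_le_iff₀ hC0] at this
    linarith
  have hSC : 0 < Real.sqrt C ^ n := by positivity
  rw [div_mul_eq_mul_div, div_le_iff₀ (by positivity)]
  calc Kn * Real.sqrt τ ^ n ≤ Kn * (Real.sqrt C ^ n * Real.sqrt (T - τ) ^ n) :=
        mul_le_mul_of_nonneg_left h8 hKn0.le
    _ = Real.sqrt C ^ n * (Kn * Real.sqrt (T - τ) ^ n) := by ring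
    _ ≤ Real.sqrt C ^ n * (C' * gvol (gOf (θ 0))) := mul_le_mul_of_nonneg_left h6 hSC.le
    _ = gvol (gOf (θ 0)) * (C' * Real.sqrt C ^ n) := by ring

end Pool.Agent.Helper60.RFn.VLBn
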