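import Pool.Agent.Helper19.RFn.GoalsM

/-!
Packet M-RLB of project RFn (MP_c98eff_gt): lower Ricci bound for almost constant curvature.
-/

set_option autoImplicit false

open Finset Pool.Agent.Helper47.RFn Pool.Agent.Helper73.RFn

namespace Pool.Agent.Helper60.RFn

theorem rlb : Pool.Agent.Helper19.RFn.RlbStmt := by
  intro n A θ x ε hn hn1 hE w hw
  set v : Fin (n + 1) → ℝ := fun a => nfc A a x with hv
  set L : ℝ := lamf A θ x with hL
  have hv1 : ∑ a, v a ^ 2 = 1 := hn1
  have hvw : ∑ a, v a * w a = 0 := hw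
  have hn2 : (0 : ℝ) < (n : ℝ) - 1 := by
    have : (2 : ℝ) ≤ n := by exact_mod_cast hn
    linarith
  have hP : ∀ a b, Pff A a b x = (if a = b then 1 else 0) - v a * v b := fun a b => rfl
  have hPt : ∑ b, Pff A b b x = n := by
    simp_rw [hP]
    rw [Finset.sum_sub_distrib]
    have h1 : ∑ b, v b * v b = 1 := by
      rw [← hv1]
      exact Finset.sum_congr rfl fun b _ => (sq _).symm
    rw [h1]
    simp
  have hPP : ∀ a c, ∑ b, Pff A a b x * Pff A b c x = Pff A a c x := by
    intro a c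
    simp_rw [hP]
    have h1 : ∀ b, ((if a = b then (1 : ℝ) else 0) - v a * v b) *
        ((if b = c then 1 else 0) - v b * v c) =
        (if a = b then (if b = c then 1 else 0) - v b * v c else 0) -
          v a * (if b = c then v b else 0) + v a * v c * v b ^ 2 := by
      intro b
      split_ifs <;> ring
    simp_rw [h1]
    rw [Finset.sum_add_distrib, Finset.sum_sub_distrib, ← Finset.mul_sum, ← Finset.mul_sum, hv1]
    simp
  have hR : ∀ a c, Rcf A θ a c x = ∑ b, Ef A θ a b c b x + L * Pff A a c x := by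
    intro a c
    have h1 : ∀ b, Rf A θ a b c b x = Ef A θ a b c b x +
        1 / ((n : ℝ) - 1) * L * (Pff A a c x * Pff A b b x - Pff A a b x * Pff A b c x) := by
      intro b
      simp only [Ef, hL]
      ring
    unfold Rcf
    simp_rw [h1]
    rw [Finset.sum_add_distrib, ← Finset.mul_sum, Finset.sum_sub_distrib, ← Finset.mul_sum, hPt,
      hPP]
    congr 1
    field_simp
  have hPw : ∑ a, ∑ c, Pff A a c x * w a * w c = ∑ a, w a ^ 2 := by
    simp_rw [hP]
    have h1 : ∀ a, ∑ c, ((if a = c then (1 : ℝ) else 0) - v a * v c) * w a * w c =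
        w a ^ 2 - v a * w a * ∑ c, v c * w c := by
      intro a
      have h2 : ∀ c, ((if a = c then (1 : ℝ) else 0) - v a * v c) * w a * w c =
          (if a = c then w a * w c else 0) - v a * w a * (v c * w c) := by
        intro c
        split_ifs <;> ring
      simp_rw [h2]
      rw [Finset.sum_sub_distrib, ← Finset.mul_sum]
      simp [sq]
    simp_rw [h1, hvw]
    simp
  have hε : 0 ≤ ε := (abs_nonneg _).trans (hE 0 0 0 0)
  have hEs : ∀ a c, |∑ b, Ef A θ a b c b x| ≤ ((n : ℝ) + 1) * ε := by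
    intro a c
    refine (Finset.abs_sum_le_sum_abs _ _).trans ?_
    refine (Finset.sum_le_sum fun b _ => hE a b c b).trans (le_of_eq ?_)
    simp
  have hEw : -(((n : ℝ) + 1) ^ 2 * ε * ∑ a, w a ^ 2) ≤
      ∑ a, ∑ c, (∑ b, Ef A θ a b c b x) * w a * w c := by
    have h1 : ∀ a c, -(((n : ℝ) + 1) * ε * (|w a| * |w c|)) ≤
        (∑ b, Ef A θ a b c b x) * w a * w c := by
      intro a c
      have h2 : |(∑ b, Ef A θ a b c b x) * w a * w c| ≤ ((n : ℝ) + 1) * ε * (|w a| * |w c|) := by
        rw [abs_mul, abs_mul, mul_assoc]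
        exact mul_le_mul_of_nonneg_right (hEs a c) (by positivity)
      exact (abs_le.1 h2).1
    have h2 : ∑ a, ∑ c, -(((n : ℝ) + 1) * ε * (|w a| * |w c|)) =
        -(((n : ℝ) + 1) * ε * (∑ a, |w a|) ^ 2) := by
      simp_rw [Finset.sum_neg_distrib, ← Finset.mul_sum, ← Finset.sum_mul, sq]
    have h3 : (∑ a, |w a|) ^ 2 ≤ ((n : ℝ) + 1) * ∑ a, w a ^ 2 := by
      have h4 := sq_sum_le_card_mul_sum_sq (s := Finset.univ) (f := fun a => |w a|)
      simp only [sq_abs, Finset.card_univ, Fintype.card_fin] at h4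
      push_cast at h4
      exact h4
    calc -(((n : ℝ) + 1) ^ 2 * ε * ∑ a, w a ^ 2) =
        -(((n : ℝ) + 1) * ε * (((n : ℝ) + 1) * ∑ a, w a ^ 2)) := by ring
      _ ≤ -(((n : ℝ) + 1) * ε * (∑ a, |w a|) ^ 2) :=
        neg_le_neg (mul_le_mul_of_nonneg_left h3 (by positivity))
      _ = ∑ a, ∑ c, -(((n : ℝ) + 1) * ε * (|w a| * |w c|)) := h2.symm
      _ ≤ _ := Finset.sum_le_sum fun a _ => Finset.sum_le_sum fun c _ => h1 a c
  have hfin : ∑ a, ∑ b, Rcf A θ a b x * w a * w b =
      ∑ a, ∑ c, (∑ b, Ef A θ a b c b x) * w a * w c + L * ∑ a, w a ^ 2 := by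
    rw [← hPw, Finset.mul_sum, ← Finset.sum_add_distrib]
    refine Finset.sum_congr rfl fun a _ => ?_
    rw [Finset.mul_sum, ← Finset.sum_add_distrib]
    refine Finset.sum_congr rfl fun c _ => ?_
    rw [hR]
    ring
  rw [hfin]
  linarith

end Pool.Agent.Helper60.RFn
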