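import Pool.Agent.Helper73.RFn.GoalsH

/-! # Packet RFn-CHO (MP_c98eff_gt): Cholesky frames in every dimension -/

set_option autoImplicit false

open Finset Pool.Agent.Helper47.RFn

namespace Pool.Agent.Helper60.RFn.CHO

open Pool.Agent.Helper73.RFn

theorem sum_mem {X ι : Type} (P : (X → ℝ) → Prop) (hc : ∀ c : ℝ, P fun _ => c)
    (hadd : ∀ f g, P f → P g → P fun x => f x + g x) (s : Finset ι) (f : ι → X → ℝ)
    (hf : ∀ i ∈ s, P (f i)) : P (fun x => ∑ i ∈ s, f i x) := by
  classical
  induction s using Finset.induction_on with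
  | empty => simpa using hc 0
  | insert a s ha ih =>
    have h1 := hadd _ _ (hf a (mem_insert_self a s)) (ih fun b hb => hf b (mem_insert_of_mem hb))
    convert h1 using 2 with x
    exact sum_insert ha

/-- Cholesky decomposition with entries in an algebra of functions closed under square roots and
inverses of square roots of positive functions. -/
theorem chol {X : Type} (P : (X → ℝ) → Prop) (hc : ∀ c : ℝ, P fun _ => c)
    (hadd : ∀ f g, P f → P g → P fun x => f x + g x)
    (hsub : ∀ f g, P f → P g → P fun x => f x - g x)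
    (hmul : ∀ f g, P f → P g → P fun x => f x * g x)
    (hsq : ∀ f, P f → (∀ x, 0 < f x) → ∃ r s : X → ℝ, P r ∧ P s ∧ (∀ x, r x * r x = f x) ∧
      ∀ x, s x * r x = 1) :
    ∀ (k : ℕ) (G : X → Fin k → Fin k → ℝ), (∀ x i j, G x i j = G x j i) →
      (∀ x (v : Fin k → ℝ), v ≠ 0 → 0 < ∑ i, ∑ j, G x i j * v i * v j) →
      (∀ i j, P (fun x => G x i j)) →
      ∃ θ A : X → Fin k → Fin k → ℝ, (∀ i j, P (fun x => θ x i j)) ∧
        (∀ i j, P (fun x => A x i j)) ∧ (∀ x i j, ∑ l, θ x i l * θ x j l = G x i j) ∧
        ∀ x i j, ∑ l, A x i l * θ x l j = if i = j then 1 else 0 := by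
  intro k
  induction k with
  | zero =>
    intro G _ _ _
    exact ⟨fun _ i => i.elim0, fun _ i => i.elim0, fun i => i.elim0, fun i => i.elim0,
      fun _ i => i.elim0, fun _ i => i.elim0⟩
  | succ k ih =>
    intro G hsy hpos hP
    have ha : ∀ x, 0 < G x 0 0 := by
      intro x
      have h1 := hpos x (Pi.single 0 1) (by
        intro h
        have := congrFun h 0
        simp at this)
      simpa [Fin.sum_univ_succ, Pi.single_apply] using h1
    obtain ⟨r, s, hr, hs, hrr, hsr⟩ := hsq _ (hP 0 0) ha
    have hss : ∀ x, s x * s x * G x 0 0 = 1 := by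
      intro x
      rw [← hrr x]
      calc s x * s x * (r x * r x) = (s x * r x) * (s x * r x) := by ring
        _ = 1 := by rw [hsr x, one_mul]
    let G' : X → Fin k → Fin k → ℝ := fun x i j =>
      G x i.succ j.succ - G x i.succ 0 * G x j.succ 0 * (s x * s x)
    have hP' : ∀ i j, P (fun x => G' x i j) := fun i j =>
      hsub _ _ (hP _ _) (hmul _ _ (hmul _ _ (hP _ _) (hP _ _)) (hmul _ _ hs hs))
    have hsy' : ∀ x i j, G' x i j = G' x j i := by
      intro x i j
      show G x i.succ j.succ - G x i.succ 0 * G x j.succ 0 * (s x * s x) =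
        G x j.succ i.succ - G x j.succ 0 * G x i.succ 0 * (s x * s x)
      rw [hsy x i.succ j.succ]
      ring
    have hpos' : ∀ x (v : Fin k → ℝ), v ≠ 0 → 0 < ∑ i, ∑ j, G' x i j * v i * v j := by
      intro x v hv
      set β : ℝ := ∑ i, G x i.succ 0 * v i with hβ
      have hv' : (Fin.cons (-(β * (s x * s x))) v : Fin (k + 1) → ℝ) ≠ 0 := by
        intro h
        apply hv
        funext i
        have := congrFun h i.succ
        simpa using this
      have h1 := hpos x _ hv'
      simp only [Fin.sum_univ_succ, Fin.cons_zero, Fin.cons_succ] at h1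
      have e1 : ∑ j : Fin k, G x 0 j.succ * (-(β * (s x * s x))) * v j =
          -(β * (s x * s x)) * β := by
        rw [hβ, Finset.mul_sum]
        refine Finset.sum_congr rfl fun j _ => ?_
        rw [hsy x 0 j.succ]
        ring
      have e2 : ∑ i : Fin k, (G x i.succ 0 * v i * (-(β * (s x * s x))) +
          ∑ j : Fin k, G x i.succ j.succ * v i * v j) =
          -(β * (s x * s x)) * β + ∑ i : Fin k, ∑ j : Fin k, G x i.succ j.succ * v i * v j := by
        rw [Finset.sum_add_distrib]
        congr 1
        rw [hβ, Finset.mul_sum]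
        refine Finset.sum_congr rfl fun j _ => ?_
        ring
      have e3 : ∑ i, ∑ j, G' x i j * v i * v j =
          ∑ i : Fin k, ∑ j : Fin k, G x i.succ j.succ * v i * v j - β * β * (s x * s x) := by
        have : ∀ i j, G' x i j * v i * v j = G x i.succ j.succ * v i * v j -
            (G x i.succ 0 * v i) * (G x j.succ 0 * v j) * (s x * s x) := by
          intro i j
          show (G x i.succ j.succ - G x i.succ 0 * G x j.succ 0 * (s x * s x)) * v i * v j = _
          ring
        simp_rw [this, Finset.sum_sub_distrib]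
        congr 1
        rw [hβ, Finset.sum_mul_sum, Finset.sum_mul]
        refine Finset.sum_congr rfl fun i _ => ?_
        rw [Finset.sum_mul]
      rw [e1, e2] at h1
      rw [e3]
      have e4 : G x 0 0 * (-(β * (s x * s x))) * (-(β * (s x * s x))) =
          β * β * (s x * s x) := by
        calc G x 0 0 * (-(β * (s x * s x))) * (-(β * (s x * s x))) =
            β * β * (s x * s x) * (s x * s x * G x 0 0) := by ring
          _ = _ := by rw [hss, mul_one]
      rw [e4] at h1
      linarith
    obtain ⟨θ', A', hθ, hA, hG, hAθ⟩ := ih G' hsy' hpos' hP'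
    refine ⟨fun x => Fin.cons (Fin.cons (r x) 0) (fun i => Fin.cons (G x i.succ 0 * s x) (θ' x i)),
      fun x => Fin.cons (Fin.cons (s x) 0)
        (fun i => Fin.cons (0 - (∑ j, A' x i j * G x j.succ 0) * (s x * s x)) (A' x i)),
      ?_, ?_, ?_, ?_⟩
    · intro i j
      refine Fin.cases ?_ (fun i => ?_) i
      · refine Fin.cases ?_ (fun j => ?_) j
        · simpa using hr
        · simpa using hc 0
      · refine Fin.cases ?_ (fun j => ?_) j
        · simpa using hmul _ _ (hP _ _) hs
        · simpa using hθ i j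
    · intro i j
      refine Fin.cases ?_ (fun i => ?_) i
      · refine Fin.cases ?_ (fun j => ?_) j
        · simpa using hs
        · simpa using hc 0
      · refine Fin.cases ?_ (fun j => ?_) j
        · simp only [Fin.cons_succ, Fin.cons_zero]
          exact hsub _ _ (hc 0) (hmul _ _ (sum_mem P hc hadd _ _ fun j _ =>
            hmul _ _ (hA i j) (hP j.succ 0)) (hmul _ _ hs hs))
        · simpa using hA i j
    · intro x i j
      have hrs : r x * s x = 1 := by rw [mul_comm]; exact hsr x
      refine Fin.cases ?_ (fun i => ?_) i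
      · refine Fin.cases ?_ (fun j => ?_) j
        · simp [Fin.sum_univ_succ, hrr]
        · simp only [Fin.sum_univ_succ, Fin.cons_zero, Fin.cons_succ, Pi.zero_apply, zero_mul,
            Finset.sum_const_zero, add_zero]
          rw [hsy x 0 j.succ]
          calc r x * (G x j.succ 0 * s x) = G x j.succ 0 * (r x * s x) := by ring
            _ = _ := by rw [hrs, mul_one]
      · refine Fin.cases ?_ (fun j => ?_) j
        · simp only [Fin.sum_univ_succ, Fin.cons_zero, Fin.cons_succ, Pi.zero_apply, mul_zero,
            Finset.sum_const_zero, add_zero]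
          calc G x i.succ 0 * s x * r x = G x i.succ 0 * (s x * r x) := by ring
            _ = _ := by rw [hsr, mul_one]
        · simp only [Fin.sum_univ_succ, Fin.cons_zero, Fin.cons_succ]
          rw [hG x i j]
          show G x i.succ 0 * s x * (G x j.succ 0 * s x) +
            (G x i.succ j.succ - G x i.succ 0 * G x j.succ 0 * (s x * s x)) = _
          ring
    · intro x i j
      refine Fin.cases ?_ (fun i => ?_) i
      · refine Fin.cases ?_ (fun j => ?_) j
        · simp [Fin.sum_univ_succ, hsr]
        · simp [Fin.sum_univ_succ, (Fin.succ_ne_zero j).symm]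
      · refine Fin.cases ?_ (fun j => ?_) j
        · simp only [Fin.sum_univ_succ, Fin.cons_zero, Fin.cons_succ, Fin.succ_ne_zero, if_false]
          have e1 : ∑ l, A' x i l * (G x l.succ 0 * s x) =
              (∑ l, A' x i l * G x l.succ 0) * s x := by
            rw [Finset.sum_mul]
            exact Finset.sum_congr rfl fun l _ => by ring
          rw [e1]
          calc (0 - (∑ j, A' x i j * G x j.succ 0) * (s x * s x)) * r x +
              (∑ l, A' x i l * G x l.succ 0) * s x =
              (∑ j, A' x i j * G x j.succ 0) * s x * (1 - s x * r x) := by ring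
            _ = 0 := by rw [hsr]; ring
        · simp only [Fin.sum_univ_succ, Fin.cons_zero, Fin.cons_succ, Pi.zero_apply, mul_zero,
            zero_add, Fin.succ_inj]
          exact hAθ x i j

theorem cho (hC : Goal_C1) : ChoStmt := by
  intro n G hg
  obtain ⟨hconst, hadd, hsub, hmul, hneg, -, hcomp, -⟩ := hC n
  have hsy : ∀ x i j, G x i j = G x j i := fun x i j => by
    have h := (hg.pos x).1
    have h2 := congrFun (congrFun h i) j
    simpa using h2.symm
  have hpos : ∀ x (v : Fin (n + 1) → ℝ), v ≠ 0 → 0 < ∑ i, ∑ j, G x i j * v i * v j := by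
    intro x v hv
    have h := (hg.pos x).dotProduct_mulVec_pos hv
    simp only [Matrix.mulVec, dotProduct, star_trivial, Finset.mul_sum] at h
    refine lt_of_lt_of_eq h ?_
    refine Finset.sum_congr rfl fun i _ => Finset.sum_congr rfl fun j _ => ?_
    ring
  have hsq : ∀ f : EE n → ℝ, Sm f → (∀ x, 0 < f x) → ∃ r s : EE n → ℝ, Sm r ∧ Sm s ∧
      (∀ x, r x * r x = f x) ∧ ∀ x, s x * r x = 1 := by
    intro f hf hp
    have h1 : Sm (fun x => Real.sqrt (f x)) := by
      refine hcomp f Real.sqrt (Set.Ioi 0) isOpen_Ioi ?_ hf fun x => hp x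
      intro y hy
      exact (Real.contDiffAt_sqrt (ne_of_gt hy)).contDiffWithinAt
    have h2 : ∀ x, 0 < Real.sqrt (f x) := fun x => Real.sqrt_pos.2 (hp x)
    have h3 : Sm (fun x => (Real.sqrt (f x))⁻¹) := by
      refine hcomp _ (fun y => y⁻¹) (Set.Ioi 0) isOpen_Ioi ?_ h1 fun x => h2 x
      intro y hy
      exact (contDiffAt_inv ℝ (ne_of_gt hy)).contDiffWithinAt
    exact ⟨_, _, h1, h3, fun x => Real.mul_self_sqrt (hp x).le,
      fun x => inv_mul_cancel₀ (h2 x).ne'⟩
  obtain ⟨θ, A, hθ, hA, hG, hAθ⟩ := chol Sm hconst hadd hsub hmul hsq (n + 1) (fun x => G x) hsy hpos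
    hg.sm
  have hgo : ∀ x, gOf (fun x => Matrix.of (θ x)) x = G x := by
    intro x
    ext i j
    simp only [gOf, Matrix.mul_apply, Matrix.transpose_apply, Matrix.of_apply]
    exact hG x i j
  have hinv : ∀ x, Matrix.of (A x) * Matrix.of (θ x) = 1 := by
    intro x
    ext i j
    simp only [Matrix.mul_apply, Matrix.of_apply, Matrix.one_apply]
    exact hAθ x i j
  refine ⟨fun x => Matrix.of (A x), fun x => Matrix.of (θ x), ⟨hinv, hA, hθ, ?_⟩, hgo⟩
  intro x a
  -- `A x = A (G x) = A θ θᵀ x = θᵀ x`
  have h1 : ∀ i, x i = ∑ j, G x i j * x j := fun i => (hg.rad x i).symm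
  have h2 : ∀ i, ∑ j, G x i j * x j = ∑ l, θ x i l * ∑ j, θ x j l * x j := by
    intro i
    calc ∑ j, G x i j * x j = ∑ j, ∑ l, θ x i l * (θ x j l * x j) := by
          refine Finset.sum_congr rfl fun j _ => ?_
          rw [← hG x i j, Finset.sum_mul]
          exact Finset.sum_congr rfl fun l _ => by ring
      _ = ∑ l, ∑ j, θ x i l * (θ x j l * x j) := Finset.sum_comm
      _ = _ := Finset.sum_congr rfl fun l _ => by rw [Finset.mul_sum]
  show ∑ i, A x a i * x i = ∑ i, θ x i a * x i
  calc ∑ i, A x a i * x i = ∑ i, A x a i * ∑ l, θ x i l * ∑ j, θ x j l * x j := by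
        refine Finset.sum_congr rfl fun i _ => ?_
        rw [← h2 i, ← h1 i]
    _ = ∑ i, ∑ l, A x a i * θ x i l * ∑ j, θ x j l * x j := by
        refine Finset.sum_congr rfl fun i _ => ?_
        rw [Finset.mul_sum]
        exact Finset.sum_congr rfl fun l _ => by ring
    _ = ∑ l, ∑ i, A x a i * θ x i l * ∑ j, θ x j l * x j := Finset.sum_comm
    _ = ∑ l, (if a = l then 1 else 0) * ∑ j, θ x j l * x j := by
        refine Finset.sum_congr rfl fun l _ => ?_
        rw [← Finset.sum_mul, hAθ x a l]
    _ = ∑ i, θ x i a * x i := by simp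

end Pool.Agent.Helper60.RFn.CHO
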