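import Pool.Agent.Helper73.RFn.JSn

/-!
Packet RFn-FJS (MP_c98eff_gt, general dimension): flows are jointly smooth.
Coinduction as in `Pool.Agent.Helper10.RF.fjs`.
-/

set_option autoImplicit false

open Finset Pool.Agent.Helper47.RFn

namespace Pool.Agent.Helper60.RFn.FJS

open Pool.Agent.Helper73.RFn

variable {n : ℕ}

/-- polynomials in word derivatives of the entries, up to changes outside `I` -/
inductive Cl (I : Set ℝ) (A θ : ℝ → MF n) : (ℝ → EE n → ℝ) → Prop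
  | A (a i : Fin (n + 1)) : Cl I A θ (fun t x => A t x a i)
  | th (i a : Fin (n + 1)) : Cl I A θ (fun t x => θ t x i a)
  | const (c : ℝ) : Cl I A θ (fun _ _ => c)
  | rad (i : Fin (n + 1)) : Cl I A θ (fun _ => nn i)
  | add (f h : ℝ → EE n → ℝ) : Cl I A θ f → Cl I A θ h → Cl I A θ (fun t x => f t x + h t x)
  | sub (f h : ℝ → EE n → ℝ) : Cl I A θ f → Cl I A θ h → Cl I A θ (fun t x => f t x - h t x)
  | mul (f h : ℝ → EE n → ℝ) : Cl I A θ f → Cl I A θ h → Cl I A θ (fun t x => f t x * h t x)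
  | neg (f : ℝ → EE n → ℝ) : Cl I A θ f → Cl I A θ (fun t x => - f t x)
  | ed (i : Fin (n + 1)) (f : ℝ → EE n → ℝ) : Cl I A θ f → Cl I A θ (fun t => ed i (f t))

variable {I : Set ℝ} {A θ : ℝ → MF n}

theorem Cl.sum {ι : Type} (s : Finset ι) (f : ι → ℝ → EE n → ℝ)
    (h : ∀ a ∈ s, Cl I A θ (f a)) : Cl I A θ (fun t x => ∑ a ∈ s, f a t x) := by
  classical
  induction s using Finset.induction_on with
  | empty => simpa using Cl.const (I := I) (A := A) (θ := θ) 0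
  | insert a s ha ih =>
    have h1 := Cl.add _ _ (h a (mem_insert_self a s)) (ih fun b hb => h b (mem_insert_of_mem hb))
    convert h1 using 3 with t x
    exact sum_insert ha

section geometry

theorem cl_Fdc (a : Fin (n + 1)) (f : ℝ → EE n → ℝ) (hf : Cl I A θ f) :
    Cl I A θ (fun t x => Fdc (A t) a (f t) x) :=
  Cl.sum _ _ fun i _ => Cl.mul _ _ (Cl.A a i) (Cl.ed i _ hf)

theorem cl_nfc (a : Fin (n + 1)) : Cl I A θ (fun t x => nfc (A t) a x) :=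
  Cl.sum _ _ fun i _ => Cl.mul _ _ (Cl.A a i) (Cl.rad i)

theorem cl_Cc (a b c : Fin (n + 1)) : Cl I A θ (fun t x => Cc (A t) (θ t) a b c x) := by
  refine Cl.add _ _ (Cl.sum _ _ fun j _ => Cl.mul _ _ (Cl.sub _ _ (cl_Fdc a _ (Cl.A b j))
    (cl_Fdc b _ (Cl.A a j))) (Cl.th j c)) ?_
  exact Cl.sub _ _ (Cl.mul _ _ (cl_nfc a) (Cl.const _)) (Cl.mul _ _ (cl_nfc b) (Cl.const _))

theorem cl_Gamc (a b c : Fin (n + 1)) : Cl I A θ (fun t x => Gamc (A t) (θ t) a b c x) :=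
  Cl.mul _ _ (Cl.const _) (Cl.add _ _ (Cl.sub _ _ (cl_Cc a b c) (cl_Cc b c a)) (cl_Cc c a b))

theorem cl_Kf (a b c d : Fin (n + 1)) : Cl I A θ (fun t x => Kf (A t) (θ t) a b c d x) := by
  refine Cl.sub _ _ (Cl.add _ _ (Cl.sub _ _ (cl_Fdc a _ (cl_Gamc b c d))
    (cl_Fdc b _ (cl_Gamc a c d))) (Cl.sum _ _ fun f _ => ?_)) (Cl.sum _ _ fun f _ => ?_)
  · exact Cl.sub _ _ (Cl.mul _ _ (cl_Gamc b c f) (cl_Gamc a f d))
      (Cl.mul _ _ (cl_Gamc a c f) (cl_Gamc b f d))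
  · exact Cl.mul _ _ (cl_Cc a b f) (cl_Gamc f c d)

theorem cl_Rcf (a b : Fin (n + 1)) : Cl I A θ (fun t x => Rcf (A t) (θ t) a b x) :=
  Cl.sum _ _ fun i _ => Cl.neg _ (cl_Kf a i b i)

end geometry

theorem cl_der (h8 : Goal_C8) (h2 : Goal_C2) (h9 : Goal_C9) (hF : FFlow I A θ)
    (f : ℝ → EE n → ℝ) (hf : Cl I A θ f) :
    ∃ f', Cl I A θ f' ∧ SmFam1 I f f' := by
  obtain ⟨c1, c2, c3, c4, c5, c6, -, -⟩ := h9 n I
  induction hf with
  | A a i =>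
    exact ⟨_, Cl.sum _ _ fun b _ => Cl.mul _ _ (cl_Rcf a b) (Cl.A b i), hF.flA a i⟩
  | th i a =>
    exact ⟨_, Cl.neg _ (Cl.sum _ _ fun b _ => Cl.mul _ _ (Cl.th i b) (cl_Rcf b a)),
      hF.flt i a⟩
  | const c =>
    exact ⟨_, Cl.const 0, c1 (fun _ => c) (fun _ => 0) continuousOn_const continuousOn_const
      fun t _ => hasDerivWithinAt_const t I c⟩
  | rad i =>
    refine ⟨_, Cl.const 0, (h8 n I).2.2.2.2.2.2.2.2.1 i,
      (h8 n I).1 (fun _ => 0) continuousOn_const, fun w x hx t ht => ?_⟩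
    have hz : ∀ (w : List (Fin (n + 1))) (x : EE n), Ew w (fun _ => (0 : ℝ)) x = 0 := by
      intro w
      induction w with
      | nil => intro x; rfl
      | cons i w ih =>
        intro x
        have : Ew w (fun _ : EE n => (0 : ℝ)) = fun _ => 0 := funext ih
        show ed i (Ew w (fun _ : EE n => (0 : ℝ))) x = 0
        rw [this]
        exact (h2 n).1 i 0 x
    show HasDerivWithinAt (fun _ => Ew w (nn i) x) (Ew w (fun _ => (0 : ℝ)) x) I t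
    rw [hz]
    exact hasDerivWithinAt_const t I _
  | add f h _ _ ihf ihh =>
    obtain ⟨f', h1, h2⟩ := ihf
    obtain ⟨h', h3, h4⟩ := ihh
    exact ⟨_, Cl.add _ _ h1 h3, c2 _ _ _ _ h2 h4⟩
  | sub f h _ _ ihf ihh =>
    obtain ⟨f', h1, h2⟩ := ihf
    obtain ⟨h', h3, h4⟩ := ihh
    exact ⟨_, Cl.sub _ _ h1 h3, c3 _ _ _ _ h2 h4⟩
  | mul f h kf kh ihf ihh =>
    obtain ⟨f', h1, h2⟩ := ihf
    obtain ⟨h', h3, h4⟩ := ihh
    exact ⟨_, Cl.add _ _ (Cl.mul _ _ h1 kh) (Cl.mul _ _ kf h3), c4 _ _ _ _ h2 h4⟩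
  | neg f _ ihf =>
    obtain ⟨f', h1, h2⟩ := ihf
    exact ⟨_, Cl.neg _ h1, c5 _ _ h2⟩
  | ed i f _ ihf =>
    obtain ⟨f', h1, h2⟩ := ihf
    exact ⟨_, Cl.ed i _ h1, c6 _ _ i h2⟩

theorem cl_smInf (h8 : Goal_C8) (h2 : Goal_C2) (h9 : Goal_C9) (hF : FFlow I A θ)
    (f : ℝ → EE n → ℝ) (hf : Cl I A θ f) :
    SmInf I f := by
  choose d hd using fun x : {f : ℝ → EE n → ℝ // Cl I A θ f} => cl_der h8 h2 h9 hF x.1 x.2
  let D : {f : ℝ → EE n → ℝ // Cl I A θ f} → {f : ℝ → EE n → ℝ // Cl I A θ f} :=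
    fun x => ⟨d x, (hd x).1⟩
  refine ⟨fun k => (D^[k] ⟨f, hf⟩).1, rfl, fun k => ?_⟩
  have h1 : (D^[k + 1] ⟨f, hf⟩) = D (D^[k] ⟨f, hf⟩) := Function.iterate_succ_apply' D k _
  show SmFam1 I (D^[k] ⟨f, hf⟩).1 (D^[k + 1] ⟨f, hf⟩).1
  rw [h1]
  exact (hd _).2

theorem fjs (h2 : Goal_C2) (h8 : Goal_C8) (h9 : Goal_C9) (hJ : JsmStmt) :
    FjsStmt := by
  intro n T I A θ _ hI hF
  have key : ∀ f, Cl I A θ f → JS T f := fun f hf => hJ n T I f hI (cl_smInf h8 h2 h9 hF f hf)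
  refine ⟨fun i j => key _ (Cl.A i j), fun i j => key _ (Cl.th i j), fun i j => ?_⟩
  exact key _ (cl_Rcf i j)

end Pool.Agent.Helper60.RFn.FJS
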