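import Pool.Agent.Helper47.RFn.GoalsA

/-!
# Project RFn, packet BIA: pointwise consequences of the Bianchi identity
-/

set_option autoImplicit false

namespace Pool.Agent.Helper47.RFn

open Finset

namespace BIAaux

theorem cs1 {α : Type*} [Fintype α] (f g : α → ℝ) :
    (∑ a, f a * g a) ^ 2 ≤ (∑ a, f a ^ 2) * ∑ a, g a ^ 2 :=
  Finset.sum_mul_sq_le_sq_mul_sq _ _ _

theorem cs2 {α β : Type*} [Fintype α] [Fintype β] (f g : α → β → ℝ) :
    (∑ a, ∑ b, f a b * g a b) ^ 2 ≤ (∑ a, ∑ b, f a b ^ 2) * ∑ a, ∑ b, g a b ^ 2 := by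
  have h := cs1 (fun p : α × β => f p.1 p.2) (fun p => g p.1 p.2)
  simpa only [Fintype.sum_prod_type] using h

theorem cs3 {α β γ : Type*} [Fintype α] [Fintype β] [Fintype γ] (f g : α → β → γ → ℝ) :
    (∑ a, ∑ b, ∑ c, f a b c * g a b c) ^ 2
      ≤ (∑ a, ∑ b, ∑ c, f a b c ^ 2) * ∑ a, ∑ b, ∑ c, g a b c ^ 2 := by
  have h := cs2 (fun (a : α) (p : β × γ) => f a p.1 p.2) (fun a p => g a p.1 p.2)
  simpa only [Fintype.sum_prod_type] using h

theorem cs4 {α β γ δ : Type*} [Fintype α] [Fintype β] [Fintype γ] [Fintype δ]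
    (f g : α → β → γ → δ → ℝ) :
    (∑ a, ∑ b, ∑ c, ∑ d, f a b c d * g a b c d) ^ 2
      ≤ (∑ a, ∑ b, ∑ c, ∑ d, f a b c d ^ 2) * ∑ a, ∑ b, ∑ c, ∑ d, g a b c d ^ 2 := by
  have h := cs3 (fun (a : α) (b : β) (p : γ × δ) => f a b p.1 p.2) (fun a b p => g a b p.1 p.2)
  simpa only [Fintype.sum_prod_type] using h

variable {n : ℕ} {T : ℝ} (F : FB n T)

theorem ev_dE (z : F.Z) (t : TI T) : F.ev z t F.dE =
    ∑ e, ∑ a, ∑ b, ∑ c, ∑ d, F.ev z t (F.H e (F.E a b c d)) ^ 2 := by
  simp only [FB.dE, map_sum, map_pow]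

theorem ev_dR (z : F.Z) (t : TI T) : F.ev z t F.dR =
    ∑ e, ∑ a, ∑ b, ∑ c, ∑ d, F.ev z t (F.H e (F.R a b c d)) ^ 2 := by
  simp only [FB.dR, map_sum, map_pow]

theorem ev_e2 (z : F.Z) (t : TI T) : F.ev z t F.e2 =
    ∑ a, ∑ b, ∑ c, ∑ d, F.ev z t (F.E a b c d) ^ 2 := by
  simp only [FB.e2, map_sum, map_pow]

theorem ev_gg (z : F.Z) (t : TI T) (f g : F.B) : F.ev z t (F.gg f g) =
    ∑ a, F.ev z t (F.H a f) * F.ev z t (F.H a g) := by
  simp only [FB.gg, map_sum, map_mul]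

theorem ev_gg_self (z : F.Z) (t : TI T) (f : F.B) : F.ev z t (F.gg f f) =
    ∑ a, F.ev z t (F.H a f) ^ 2 := by
  rw [ev_gg]
  exact Finset.sum_congr rfl fun a _ => (sq _).symm

theorem ev_h2 (z : F.Z) (t : TI T) (f : F.B) : F.ev z t (F.h2 f) =
    ∑ a, ∑ b, F.ev z t (F.H a (F.H b f)) ^ 2 := by
  simp only [FB.h2, map_sum, map_pow]

/-- derivative of `E` -/
theorem ev_HE (hI : ∀ a b c d e, F.H e (F.I a b c d) = 0) (z : F.Z) (t : TI T)
    (e a b c d : Ix n) : F.ev z t (F.H e (F.E a b c d)) = F.ev z t (F.H e (F.R a b c d))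
      - 1 / ((n : ℝ) - 1) * (F.ev z t (F.H e F.lam) * F.ev z t (F.I a b c d)) := by
  unfold FB.E
  rw [map_sub, Derivation.map_smul, Derivation.leibniz, hI, smul_zero, zero_add, smul_eq_mul,
    map_sub, map_smul, map_mul, smul_eq_mul]
  ring

/-- a partial trace of a sum of squares -/
theorem sum_le5 (X : Ix n → Ix n → Ix n → Ix n → Ix n → ℝ) (h : ∀ e a b c d, 0 ≤ X e a b c d) :
    ∑ e, ∑ a, ∑ b, ∑ c, X e a b c b ≤ ∑ e, ∑ a, ∑ b, ∑ c, ∑ d, X e a b c d := by
  refine Finset.sum_le_sum fun e _ => Finset.sum_le_sum fun a _ => Finset.sum_le_sum fun b _ =>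
    Finset.sum_le_sum fun c _ => ?_
  exact Finset.single_le_sum (f := fun d => X e a b c d) (fun d _ => h e a b c d)
    (Finset.mem_univ b)

theorem sum_le3 (X : Ix n → Ix n → Ix n → Ix n → Ix n → ℝ) (h : ∀ e a b c d, 0 ≤ X e a b c d) :
    ∑ e, ∑ b, ∑ c, X e e b c b ≤ ∑ e, ∑ a, ∑ b, ∑ c, ∑ d, X e a b c d := by
  refine le_trans ?_ (sum_le5 X h)
  refine Finset.sum_le_sum fun e _ => ?_
  exact Finset.single_le_sum (f := fun a => ∑ b, ∑ c, X e a b c b)
    (fun a _ => Finset.sum_nonneg fun b _ => Finset.sum_nonneg fun c _ => h e a b c b)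
    (Finset.mem_univ e)

end BIAaux

open BIAaux

theorem goal_BIA (hRIC : Goal_RIC) (hPRD : Goal_PRD) : Goal_BIA := by
  intro n hn
  have hn3 : (3 : ℝ) ≤ n := by exact_mod_cast hn
  set m : ℝ := (n : ℝ) + 1 with hm
  have hm4 : 4 ≤ m := by rw [hm]; linarith
  have hcard : (Fintype.card (Ix n) : ℝ) = m := by simp [hm]
  set C1 : ℝ := 4 * m ^ 2 with hC1
  set C2 : ℝ := 2 + 128 * m ^ 4 * C1 with hC2
  have hC10 : 0 < C1 := by positivity
  have hC20 : 0 < C2 := by positivity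
  have hC12 : C1 ≤ C2 := by
    have : 1 ≤ m ^ 4 := one_le_pow₀ (by linarith)
    nlinarith
  have hm5 : 1 ≤ m ^ 5 := one_le_pow₀ (by linarith)
  have hC2C : C2 ≤ m ^ 5 * C2 := by nlinarith
  have hC1C : C1 ≤ m ^ 5 * C2 := hC12.trans hC2C
  have hm4C : m ^ 4 ≤ m ^ 5 * C2 := by
    have h1 : m ^ 4 ≤ m ^ 5 := by
      have : m ^ 5 = m ^ 4 * m := by ring
      rw [this]
      have : 0 ≤ m ^ 4 := by positivity
      nlinarith
    have h2 : 1 ≤ C2 := by
      have : 0 ≤ 128 * m ^ 4 * C1 := by positivity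
      linarith
    nlinarith [pow_pos (by linarith : (0:ℝ) < m) 5]
  refine ⟨m ^ 5 * C2, by positivity, ?_⟩
  intro T F hF z t
  obtain ⟨hRs, -, -, hdiv, -, -, -⟩ := hRIC n T F hF
  obtain ⟨-, hPB⟩ := hPRD n T F
  obtain ⟨-, -, hHI, -, -, -, hPs, -, hPP, hPtr⟩ := hPB hF.toBase
  -- arrays
  set E' : Ix n → Ix n → Ix n → Ix n → Ix n → ℝ := fun e a b c d =>
    F.ev z t (F.H e (F.E a b c d)) with hE'
  set R' : Ix n → Ix n → Ix n → Ix n → Ix n → ℝ := fun e a b c d =>
    F.ev z t (F.H e (F.R a b c d)) with hR'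
  set l : Ix n → ℝ := fun a => F.ev z t (F.H a F.lam) with hl
  set Iv : Ix n → Ix n → Ix n → Ix n → ℝ := fun a b c d => F.ev z t (F.I a b c d) with hIv
  set Pv : Ix n → Ix n → ℝ := fun a b => F.ev z t (F.P a b) with hPv
  set nu : Ix n → ℝ := fun a => F.ev z t (F.nu a) with hnu
  set k : ℝ := 1 / ((n : ℝ) - 1) with hk
  have hER : ∀ e a b c d, E' e a b c d = R' e a b c d - k * (l e * Iv a b c d) :=
    fun e a b c d => ev_HE F hHI z t e a b c d
  have hdE : F.ev z t F.dE = ∑ e, ∑ a, ∑ b, ∑ c, ∑ d, E' e a b c d ^ 2 := ev_dE F z t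
  have hdR : F.ev z t F.dR = ∑ e, ∑ a, ∑ b, ∑ c, ∑ d, R' e a b c d ^ 2 := ev_dR F z t
  have hgl : F.ev z t (F.gg F.lam F.lam) = ∑ a, l a ^ 2 := ev_gg_self F z t F.lam
  have hdE0 : 0 ≤ F.ev z t F.dE := by
    rw [hdE]
    exact Finset.sum_nonneg fun e _ => Finset.sum_nonneg fun a _ => Finset.sum_nonneg fun b _ =>
      Finset.sum_nonneg fun c _ => Finset.sum_nonneg fun d _ => sq_nonneg _
  have hgg0 : ∀ f, 0 ≤ F.ev z t (F.gg f f) := fun f => by
    rw [ev_gg_self]
    exact Finset.sum_nonneg fun a _ => sq_nonneg _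
  have hh20 : ∀ f, 0 ≤ F.ev z t (F.h2 f) := fun f => by
    rw [ev_h2]
    exact Finset.sum_nonneg fun a _ => Finset.sum_nonneg fun b _ => sq_nonneg _
  -- `P` at the point
  have hnunu : ∑ a, nu a ^ 2 = 1 := by
    have h := congrArg (F.ev z t) hF.nunu
    simpa only [map_sum, map_pow, map_one] using h
  have hPe : ∀ a b, Pv a b = (if a = b then 1 else 0) - nu a * nu b := by
    intro a b
    simp only [hPv, hnu, FB.P, FB.dl, map_sub, map_mul]
    split_ifs <;> simp
  have hnule : ∀ a, |nu a| ≤ 1 := by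
    intro a
    have h : nu a ^ 2 ≤ 1 := by
      rw [← hnunu]
      exact Finset.single_le_sum (f := fun a => nu a ^ 2) (fun b _ => sq_nonneg _)
        (Finset.mem_univ a)
    exact abs_le_one_iff_mul_self_le_one.mpr (by nlinarith)
  have hPle : ∀ a b, |Pv a b| ≤ 2 := by
    intro a b
    rw [hPe]
    have h1 : |(if a = b then (1 : ℝ) else 0)| ≤ 1 := by split_ifs <;> simp
    have h2 : |nu a * nu b| ≤ 1 := by
      rw [abs_mul]
      exact mul_le_one₀ (hnule a) (abs_nonneg _) (hnule b)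
    exact (abs_sub _ _).trans (by linarith)
  have hIP : ∀ a b c d, Iv a b c d = Pv a c * Pv b d - Pv a d * Pv b c := by
    intro a b c d
    simp only [hIv, hPv, FB.I, map_sub, map_mul]
  have hIle : ∀ a b c d, Iv a b c d ^ 2 ≤ 64 := by
    intro a b c d
    rw [hIP]
    have h1 : ∀ x y : ℝ, |x| ≤ 2 → |y| ≤ 2 → |x * y| ≤ 4 := by
      intro x y hx hy
      rw [abs_mul]
      nlinarith [abs_nonneg x, abs_nonneg y]
    have h2 := h1 _ _ (hPle a c) (hPle b d)
    have h3 := h1 _ _ (hPle a d) (hPle b c)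
    have h4 : |Pv a c * Pv b d - Pv a d * Pv b c| ≤ 8 := (abs_sub _ _).trans (by linarith)
    rw [← sq_abs]
    nlinarith [abs_nonneg (Pv a c * Pv b d - Pv a d * Pv b c)]
  -- contraction
  have hRic' : ∀ b c, ∀ e, ∑ d, R' e b d c d = F.ev z t (F.H e (F.Ric b c)) := by
    intro b c e
    simp only [hR', FB.Ric, map_sum]
  have hnu_l : ∑ b, nu b * l b = 0 := by
    have h := congrArg (F.ev z t) (hF.nuH F.lam)
    simpa only [map_sum, map_mul, map_zero] using h
  have hn0 : (n : ℝ) ≠ 0 := by positivity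
  have hn1 : (n : ℝ) - 1 ≠ 0 := by linarith
  have htr : ∀ c, 2 * ∑ b, ∑ d, R' b b d c d = n * l c := by
    intro c
    have h1 := congrArg (F.ev z t) (hdiv c)
    have h2 : F.H c (∑ a, F.Ric a a) = (n : ℝ) • F.H c F.lam := by
      rw [← Derivation.map_smul]
      congr 1
      unfold FB.lam
      rw [smul_smul, mul_one_div_cancel hn0, one_smul]
    rw [h2, map_smul, map_smul, map_sum, smul_eq_mul, smul_eq_mul] at h1
    rw [← h1]
    congr 1
    exact Finset.sum_congr rfl fun b _ => hRic' b c b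
  have hPPr : ∀ a c, ∑ b, Pv a b * Pv b c = Pv a c := by
    intro a c
    have h := congrArg (F.ev z t) (hPP a c)
    simpa only [map_sum, map_mul] using h
  have hPtrr : ∑ a, Pv a a = n := by
    have h := congrArg (F.ev z t) hPtr
    rw [map_sum] at h
    rw [h]
    exact (F.ev z t).commutes _
  have hItr : ∀ b c, ∑ d, Iv b d c d = ((n : ℝ) - 1) * Pv b c := by
    intro b c
    have h1 : ∑ d, Iv b d c d = Pv b c * (∑ d, Pv d d) - ∑ d, Pv b d * Pv d c := by
      rw [Finset.mul_sum, ← Finset.sum_sub_distrib]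
      exact Finset.sum_congr rfl fun d _ => hIP b d c d
    rw [h1, hPtrr, hPPr]
    ring
  have hPl : ∀ c, ∑ b, l b * Pv b c = l c := by
    intro c
    have h1 : ∑ b, l b * Pv b c = (∑ b, l b * (if b = c then 1 else 0))
        - nu c * ∑ b, nu b * l b := by
      rw [Finset.mul_sum, ← Finset.sum_sub_distrib]
      refine Finset.sum_congr rfl fun b _ => ?_
      rw [hPe]
      ring
    rw [h1, hnu_l, mul_zero, sub_zero]
    simp
  have hEtr : ∀ c, ∑ b, ∑ d, E' b b d c d = ((n : ℝ) - 2) / 2 * l c := by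
    intro c
    have h1 : ∑ b, ∑ d, E' b b d c d = (∑ b, ∑ d, R' b b d c d)
        - k * ∑ b, l b * ∑ d, Iv b d c d := by
      rw [Finset.mul_sum, ← Finset.sum_sub_distrib]
      refine Finset.sum_congr rfl fun b _ => ?_
      rw [Finset.mul_sum, Finset.mul_sum, ← Finset.sum_sub_distrib]
      exact Finset.sum_congr rfl fun d _ => hER b b d c d
    have h2 : ∑ b, l b * ∑ d, Iv b d c d = ((n : ℝ) - 1) * l c := by
      rw [← hPl c, Finset.mul_sum]
      refine Finset.sum_congr rfl fun b _ => ?_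
      rw [hItr]
      ring
    have h3 := htr c
    have h4 : k * (((n : ℝ) - 1) * l c) = l c := by
      rw [hk]
      field_simp
    rw [h1, h2, h4]
    linarith
  -- (1)
  have hl1 : ∀ c, l c ^ 2 ≤ 4 * m ^ 2 * ∑ b, ∑ d, E' b b d c d ^ 2 := by
    intro c
    have h1 := cs2 (fun _ _ : Ix n => (1 : ℝ)) (fun b d => E' b b d c d)
    have h2 : ∑ a : Ix n, ∑ b : Ix n, (1 : ℝ) ^ 2 = m ^ 2 := by
      simp only [one_pow, Finset.sum_const, Finset.card_univ, nsmul_eq_mul, hcard]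
      ring
    simp only [one_mul] at h1
    rw [h2, hEtr c] at h1
    have h3 : l c ^ 2 / 4 ≤ (((n : ℝ) - 2) / 2 * l c) ^ 2 := by
      have h4 : (1 : ℝ) / 4 ≤ (((n : ℝ) - 2) / 2) ^ 2 := by nlinarith
      have h5 := mul_le_mul_of_nonneg_right h4 (sq_nonneg (l c))
      nlinarith
    linarith
  have hgl1 : F.ev z t (F.gg F.lam F.lam) ≤ C1 * F.ev z t F.dE := by
    rw [hgl]
    have h1 : ∑ c, l c ^ 2 ≤ ∑ c, 4 * m ^ 2 * ∑ b, ∑ d, E' b b d c d ^ 2 :=
      Finset.sum_le_sum fun c _ => hl1 c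
    have h2 : ∑ c, 4 * m ^ 2 * ∑ b, ∑ d, E' b b d c d ^ 2
        = 4 * m ^ 2 * ∑ b, ∑ d, ∑ c, E' b b d c d ^ 2 := by
      rw [← Finset.mul_sum]
      congr 1
      rw [Finset.sum_comm]
      refine Finset.sum_congr rfl fun b _ => ?_
      rw [Finset.sum_comm]
    have h3 := sum_le3 (fun e a b c d => E' e a b c d ^ 2) (fun e a b c d => sq_nonneg _)
    rw [h2] at h1
    rw [hdE, hC1]
    exact h1.trans (mul_le_mul_of_nonneg_left h3 (by positivity))
  -- (2)
  have hk0 : 0 ≤ k := by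
    rw [hk]
    apply div_nonneg zero_le_one
    linarith
  have hk1 : k ≤ 1 := by
    rw [hk, div_le_one (by linarith)]
    linarith
  have hdR1 : F.ev z t F.dR ≤ C2 * F.ev z t F.dE := by
    have h1 : ∀ e a b c d, R' e a b c d ^ 2 ≤ 2 * E' e a b c d ^ 2 + 128 * l e ^ 2 := by
      intro e a b c d
      have h2 : R' e a b c d = E' e a b c d + k * (l e * Iv a b c d) := by
        have := hER e a b c d
        linarith
      have h3 : (k * (l e * Iv a b c d)) ^ 2 ≤ 64 * l e ^ 2 := by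
        have h4 := hIle a b c d
        have h5 : k ^ 2 ≤ 1 := pow_le_one₀ hk0 hk1
        have e1 : (k * (l e * Iv a b c d)) ^ 2 = k ^ 2 * (l e ^ 2 * Iv a b c d ^ 2) := by ring
        rw [e1]
        have h6 : l e ^ 2 * Iv a b c d ^ 2 ≤ l e ^ 2 * 64 :=
          mul_le_mul_of_nonneg_left h4 (sq_nonneg _)
        have h7 : 0 ≤ l e ^ 2 * Iv a b c d ^ 2 := by positivity
        nlinarith
      rw [h2]
      nlinarith [sq_nonneg (E' e a b c d - k * (l e * Iv a b c d))]
    have h2 : F.ev z t F.dR ≤ ∑ e, ∑ a : Ix n, ∑ b : Ix n, ∑ c : Ix n, ∑ d : Ix n,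
        (2 * E' e a b c d ^ 2 + 128 * l e ^ 2) := by
      rw [hdR]
      exact Finset.sum_le_sum fun e _ => Finset.sum_le_sum fun a _ => Finset.sum_le_sum fun b _ =>
        Finset.sum_le_sum fun c _ => Finset.sum_le_sum fun d _ => h1 e a b c d
    have h3 : ∑ e, ∑ a : Ix n, ∑ b : Ix n, ∑ c : Ix n, ∑ d : Ix n,
        (2 * E' e a b c d ^ 2 + 128 * l e ^ 2) = 2 * F.ev z t F.dE
          + 128 * m ^ 4 * F.ev z t (F.gg F.lam F.lam) := by
      rw [hdE, hgl]
      simp only [Finset.sum_add_distrib, Finset.sum_const, Finset.card_univ, nsmul_eq_mul, hcard,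
        ← Finset.mul_sum]
      ring
    rw [h3] at h2
    have h4 : 128 * m ^ 4 * F.ev z t (F.gg F.lam F.lam) ≤ 128 * m ^ 4 * (C1 * F.ev z t F.dE) :=
      mul_le_mul_of_nonneg_left hgl1 (by positivity)
    rw [hC2]
    linarith
  have hC1dE : C1 * F.ev z t F.dE ≤ m ^ 5 * C2 * F.ev z t F.dE :=
    mul_le_mul_of_nonneg_right hC1C hdE0
  have hC2dE : C2 * F.ev z t F.dE ≤ m ^ 5 * C2 * F.ev z t F.dE :=
    mul_le_mul_of_nonneg_right hC2C hdE0
  have he20 : 0 ≤ F.ev z t F.e2 := by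
    rw [ev_e2]
    exact Finset.sum_nonneg fun a _ => Finset.sum_nonneg fun b _ =>
      Finset.sum_nonneg fun c _ => Finset.sum_nonneg fun d _ => sq_nonneg _
  refine ⟨hgl1.trans hC1dE, hdR1.trans hC2dE, ?_, hdE0, he20, ?_, ?_, ?_⟩
  · -- (3)
    have h1 : ∀ a, F.ev z t (F.H a F.e2) = 2 * ∑ i, ∑ j, ∑ p, ∑ q,
        F.ev z t (F.E i j p q) * E' a i j p q := by
      intro a
      simp only [FB.e2, map_sum, Finset.mul_sum]
      refine Finset.sum_congr rfl fun i _ => Finset.sum_congr rfl fun j _ =>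
        Finset.sum_congr rfl fun p _ => Finset.sum_congr rfl fun q _ => ?_
      rw [sq, Derivation.leibniz, smul_eq_mul, map_add, map_mul]
      simp only [hE']
      ring
    rw [ev_gg_self]
    have h2 : ∀ a, F.ev z t (F.H a F.e2) ^ 2 ≤ 4 * F.ev z t F.e2 *
        ∑ i, ∑ j, ∑ p, ∑ q, E' a i j p q ^ 2 := by
      intro a
      rw [h1, mul_pow, ev_e2]
      have h3 := cs4 (fun i j p q => F.ev z t (F.E i j p q)) (fun i j p q => E' a i j p q)
      linarith
    rw [hdE, Finset.mul_sum]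
    exact Finset.sum_le_sum fun a _ => h2 a
  · -- (5), (6)
    intro M hM
    have hM0 : 0 ≤ M := (abs_nonneg _).trans (hM 0 0 0 0)
    have hRic : ∀ b c, F.ev z t (F.Ric b c) ^ 2 ≤ (m * M) ^ 2 := by
      intro b c
      have h1 : |F.ev z t (F.Ric b c)| ≤ m * M := by
        unfold FB.Ric
        rw [map_sum]
        refine (Finset.abs_sum_le_sum_abs _ _).trans ?_
        calc ∑ d, |F.ev z t (F.R b d c d)| ≤ ∑ d : Ix n, M := Finset.sum_le_sum fun d _ => hM _ _ _ _
          _ = m * M := by rw [Finset.sum_const, Finset.card_univ, nsmul_eq_mul, hcard]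
      rw [← sq_abs]
      exact pow_le_pow_left₀ (abs_nonneg _) h1 2
    constructor
    · have e1 : F.ev z t (∑ a, ∑ b, ∑ c, F.H a F.lam * F.Ric b c * F.H a (F.Ric b c))
          = ∑ a, ∑ b, ∑ c, (l a * F.ev z t (F.Ric b c)) * F.ev z t (F.H a (F.Ric b c)) := by
        simp only [map_sum, map_mul, hl]
      rw [e1]
      refine (cs3 (fun a b c => l a * F.ev z t (F.Ric b c))
        (fun a b c => F.ev z t (F.H a (F.Ric b c)))).trans ?_
      have h1 : ∑ a, ∑ b : Ix n, ∑ c : Ix n, (l a * F.ev z t (F.Ric b c)) ^ 2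
          ≤ m ^ 4 * M ^ 2 * F.ev z t (F.gg F.lam F.lam) := by
        have h2 : ∑ a, ∑ b : Ix n, ∑ c : Ix n, (l a * F.ev z t (F.Ric b c)) ^ 2
            ≤ ∑ a, ∑ b : Ix n, ∑ c : Ix n, l a ^ 2 * (m * M) ^ 2 :=
          Finset.sum_le_sum fun a _ => Finset.sum_le_sum fun b _ => Finset.sum_le_sum fun c _ => by
            rw [mul_pow]
            exact mul_le_mul_of_nonneg_left (hRic b c) (sq_nonneg _)
        refine h2.trans (le_of_eq ?_)
        rw [hgl]
        simp only [Finset.sum_const, Finset.card_univ, nsmul_eq_mul, hcard]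
        rw [Finset.mul_sum]
        refine Finset.sum_congr rfl fun a _ => ?_
        ring
      have h3 : ∑ a, ∑ b, ∑ c, F.ev z t (F.H a (F.Ric b c)) ^ 2 ≤ m * (C2 * F.ev z t F.dE) := by
        have h4 : ∀ a b c, F.ev z t (F.H a (F.Ric b c)) ^ 2 ≤ m * ∑ d, R' a b d c d ^ 2 := by
          intro a b c
          rw [← hRic' b c a]
          have h5 := cs1 (fun _ : Ix n => (1 : ℝ)) (fun d => R' a b d c d)
          simp only [one_mul, one_pow, Finset.sum_const, Finset.card_univ, nsmul_eq_mul, hcard,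
            mul_one] at h5
          exact h5
        have h5 : ∑ a, ∑ b, ∑ c, F.ev z t (F.H a (F.Ric b c)) ^ 2
            ≤ m * ∑ a, ∑ b, ∑ c, ∑ d, R' a b d c d ^ 2 := by
          simp only [Finset.mul_sum]
          refine Finset.sum_le_sum fun a _ => Finset.sum_le_sum fun b _ =>
            Finset.sum_le_sum fun c _ => ?_
          rw [← Finset.mul_sum]
          exact h4 a b c
        have h6 : ∑ a, ∑ b, ∑ c, ∑ d, R' a b d c d ^ 2 ≤ F.ev z t F.dR := by
          rw [hdR]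
          have h7 := sum_le5 (fun e a b c d => R' e a b c d ^ 2) (fun e a b c d => sq_nonneg _)
          have h8 : ∑ a, ∑ b, ∑ c, ∑ d, R' a b d c d ^ 2
              = ∑ e, ∑ a, ∑ b, ∑ c, R' e a b c b ^ 2 := by
            refine Finset.sum_congr rfl fun a _ => Finset.sum_congr rfl fun b _ => ?_
            rw [Finset.sum_comm]
          rw [h8]
          exact h7
        exact h5.trans (mul_le_mul_of_nonneg_left (h6.trans hdR1) (by linarith))
      calc (∑ a, ∑ b, ∑ c, (l a * F.ev z t (F.Ric b c)) ^ 2) *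
            ∑ a, ∑ b, ∑ c, F.ev z t (F.H a (F.Ric b c)) ^ 2
          ≤ (m ^ 4 * M ^ 2 * F.ev z t (F.gg F.lam F.lam)) * (m * (C2 * F.ev z t F.dE)) := by
            apply mul_le_mul h1 h3
            · exact Finset.sum_nonneg fun a _ => Finset.sum_nonneg fun b _ =>
                Finset.sum_nonneg fun c _ => sq_nonneg _
            · have := hgg0 F.lam
              positivity
        _ = m ^ 5 * C2 * M ^ 2 * F.ev z t (F.gg F.lam F.lam) * F.ev z t F.dE := by ring
    · intro f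
      have e1 : F.ev z t (∑ a, ∑ b, F.Ric a b * F.H a (F.H b f))
          = ∑ a, ∑ b, F.ev z t (F.Ric a b) * F.ev z t (F.H a (F.H b f)) := by
        simp only [map_sum, map_mul]
      rw [e1]
      refine (cs2 (fun a b => F.ev z t (F.Ric a b))
        (fun a b => F.ev z t (F.H a (F.H b f)))).trans ?_
      rw [← ev_h2]
      have h1 : ∑ a, ∑ b, F.ev z t (F.Ric a b) ^ 2 ≤ m ^ 4 * M ^ 2 := by
        have h2 : ∑ a, ∑ b, F.ev z t (F.Ric a b) ^ 2 ≤ ∑ a : Ix n, ∑ b : Ix n, (m * M) ^ 2 :=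
          Finset.sum_le_sum fun a _ => Finset.sum_le_sum fun b _ => hRic a b
        refine h2.trans (le_of_eq ?_)
        simp only [Finset.sum_const, Finset.card_univ, nsmul_eq_mul, hcard]
        ring
      have h2 : m ^ 4 * M ^ 2 ≤ m ^ 5 * C2 * M ^ 2 :=
        mul_le_mul_of_nonneg_right hm4C (sq_nonneg M)
      exact mul_le_mul_of_nonneg_right (h1.trans h2) (hh20 f)
  · -- (7)
    intro f g
    rw [ev_gg, ev_gg_self, ev_gg_self]
    exact cs1 _ _
  · -- (8), (9)
    intro f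
    refine ⟨hgg0 f, hh20 f, ?_, ?_⟩
    · have h1 : ∀ a, F.ev z t (F.H a (F.gg f f)) =
          2 * ∑ b, F.ev z t (F.H b f) * F.ev z t (F.H a (F.H b f)) := by
        intro a
        simp only [FB.gg, map_sum, Finset.mul_sum]
        refine Finset.sum_congr rfl fun b _ => ?_
        rw [Derivation.leibniz, smul_eq_mul, map_add, map_mul]
        ring
      have h2 : F.ev z t (F.gg (F.gg f f) f) = 2 * ∑ a, ∑ b,
          (F.ev z t (F.H a f) * F.ev z t (F.H b f)) * F.ev z t (F.H a (F.H b f)) := by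
        rw [ev_gg, Finset.mul_sum]
        refine Finset.sum_congr rfl fun a _ => ?_
        rw [h1, Finset.mul_sum, Finset.mul_sum, Finset.sum_mul]
        refine Finset.sum_congr rfl fun b _ => ?_
        ring
      have h3 := cs2 (fun a b => F.ev z t (F.H a f) * F.ev z t (F.H b f))
        (fun a b => F.ev z t (F.H a (F.H b f)))
      have h4 : ∑ a, ∑ b, (F.ev z t (F.H a f) * F.ev z t (F.H b f)) ^ 2
          = F.ev z t (F.gg f f) ^ 2 := by
        rw [ev_gg_self, sq, Finset.sum_mul_sum]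
        refine Finset.sum_congr rfl fun a _ => Finset.sum_congr rfl fun b _ => ?_
        ring
      rw [h4, ← ev_h2] at h3
      rw [h2, mul_pow]
      linarith
    · have h1 : F.ev z t (F.Lap f) = ∑ a, F.ev z t (F.H a (F.H a f)) := by
        simp only [FB.Lap, map_sum]
      rw [h1, ev_h2]
      have h2 := cs1 (fun _ : Ix n => (1 : ℝ)) (fun a => F.ev z t (F.H a (F.H a f)))
      simp only [one_mul, one_pow, Finset.sum_const, Finset.card_univ, nsmul_eq_mul, hcard,
        mul_one] at h2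
      refine h2.trans (mul_le_mul_of_nonneg_left ?_ (by linarith))
      refine Finset.sum_le_sum fun a _ => ?_
      exact Finset.single_le_sum (f := fun b => F.ev z t (F.H a (F.H b f)) ^ 2)
        (fun b _ => sq_nonneg _) (Finset.mem_univ a)

end Pool.Agent.Helper47.RFn
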